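import Mathlib
import Pool.Agent.H204R3.GP.Defs
import Pool.Agent.H204R3.GP.MTDefs
import Pool.Agent.W516.MT.Defs
import Pool.Agent.W522.J.Defs
import Pool.Agent.W522.K.Defs
import Pool.Agent.W522.J.J4
import Pool.Agent.W522.K.K1

/-!
# Galois special points of the moduli space of abelian varieties

Let `x` be a point of the moduli space of principally polarized abelian varieties over the algebraic
numbers, `A = A_x`, and let `Y` be the smallest special subvariety containing `x`, so that `G_Y` is
`G_x`, the Mumford-Tate group of `A` (`Y` is a point only if `A` has complex multiplication). Let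
`ℓ` be a prime number, `V = ℚ_ℓ ⊗ H_1(A, ℚ)` the rational Tate module. The fundamental group `Γ'` of
`Y` (or of a smooth model of `Y` over a finitely generated field) acts on `V`; the point `x` defines
a homomorphism `i` from the Galois group `Γ` of its field of definition to `Γ'`. Then `G_{ℓ, x}` and
`G_{ℓ, Y}` are the connected monodromy groups of `Γ` and `Γ'` on `V`. The point `x` is not
`ℓ`-Galois special if `G_{ℓ, x} = G_{ℓ, Y}` and `Y` has positive dimension; both groups are reductive
and so determined by the tensors that they fix.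

Let `Ω` be an algebraic closure of `ℚ_ℓ` and `X = Ω ⊗ V`. The *strongly irreducible* subspaces `U`
of `X` (predicate `SI`) are the minimal nonzero subspaces that are stable under a subgroup of finite
index of `Γ`. Let `lieT` be the space of the operators on `X` that kill all Tate forms (for `Γ`). It
contains the Lie algebra of the image of `Γ`, minus half the Lie algebra of the multiplier; the
logarithms of the local monodromy at places of semistable reduction; and the Hodge-Tate operators
`p - 1/2`, `p` the projection to the part of weight one of the Hodge-Tate decomposition at a place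
above `ℓ`. Let `H` be the set of these Hodge-Tate operators, for all places above `ℓ` (they are
conjugated by elements of the monodromy group to be defined over `Ω`).

Suppose that

* (`HasSmallOperator`) for every strongly irreducible `U` of dimension at least THREE some operator
  `y` in `lieT` is small on `U`: `y - c` has rank one on `U` for some scalar `c`; or `U` is
  self-dual with an alternating pairing and `y` has rank two on `U`, or it has odd rank and square
  zero on `U`;
* (`BothWeights`) if `U` has dimension at least two and is not self-dual, both Hodge-Tate weights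
  occur in `U` at all places: no operator in `H` is a scalar on `U`.

The second condition is empty if all factors of `A` have type I, II or III; for a factor of type IV
with centre `E` it says that both entries of the signature `(p_σ, q_σ)` are positive for all
embeddings `σ` of `E`. It replaces the condition that no two of the `U` are twists of each other
(`TwistFree2`) of `MP_33b3f9_ag/OperatorsOfSmallRank`: a twist of `U` in `X` is a twist by a
character all of whose Hodge-Tate weights are zero, and so of finite order.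

Then all tensors fixed potentially by `Γ` are combinations of Hodge classes and are fixed
potentially by `Γ'`: so `G_{ℓ, x} = G_{ℓ, Y} = G_x ⊗ ℚ_ℓ`, and `x` is not an `ℓ`-Galois special
point, unless it is a CM point. For example this holds

(1) if `End(A) = ℤ` and `A` has a place of semistable reduction of odd toric rank or of toric rank
two;
(2) if `End(A) ⊗ ℚ` is an imaginary quadratic field and the signature is `(1, n - 1)`, `n ≥ 2`;
(3) if `End(A) ⊗ ℚ = E` is a CM field, the entries of all signatures are positive and for each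
embedding of `E` in `Ω` there is a place of `K` above `ℓ` at which the signature is `(1, n - 1)`;
(4) for all products of powers of abelian varieties of these kinds, of elliptic curves and of
abelian varieties with complex multiplication.

In the statement `W` is `H_1(A, ℚ)`, `T` the tangent space at the origin and `per : W → T` the
inclusion, `ω₀` is the form given by a polarization, `ω` the Weil pairing. The hypotheses `hss`, `hF`
are the theorems of Faltings, `hD` is the theorem of Deligne (for the generic point of `Y`: Hodge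
classes are absolutely Hodge, so that they are fixed potentially by `Γ'`), `hC` the theorem on
centres (Vasiu, Ullmo-Yafaev), `hH` is the existence of the Hodge-Tate decomposition (Tate,
Raynaud), `hchar` the theorem that characters with Hodge-Tate weights zero have finite order (Tate,
Serre) and `hPink` the theorem of Pink (the connected monodromy group is generated by weak Hodge
cocharacters).
-/

namespace Pool.Agent.Results.MP_09799c_ag.GaloisSpecialPoints

open Module TensorProduct Pool.Agent.H204R3.GP Pool.Agent.W516.MTD Pool.Agent.W522.U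
  Pool.Agent.W522.T Pool.Agent.W522.J Pool.Agent.W522.K

/-- The monodromy groups of a point and of the special subvariety generated by it agree, if the
strongly irreducible pieces have operators of small rank and both Hodge-Tate weights. -/
theorem result (ℓ : ℕ) [Fact ℓ.Prime]
    -- the complex torus `A(ℂ)` with a polarization
    {W T : Type} [AddCommGroup W] [Module ℚ W] [FiniteDimensional ℚ W] [AddCommGroup T]
    [Module ℂ T] (per : W →+ T) (hper : IsRationalStructure per)
    (ω₀ : W →ₗ[ℚ] W →ₗ[ℚ] ℚ) (hω₀ : IsHodgeBilinear per ω₀)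
    -- the fundamental group of `Y`, the Galois group of the point and the Weil pairing
    {Γ Γ' : Type} [Group Γ] [Group Γ'] (i : Γ →* Γ')
    (ρ' : Representation ℚ_[ℓ] Γ' (ℚ_[ℓ] ⊗[ℚ] W)) (χ' : Γ' →* ℚ_[ℓ])
    (ρ : Representation ℚ_[ℓ] Γ (ℚ_[ℓ] ⊗[ℚ] W)) (hρ : ∀ s, ρ s = ρ' (i s))
    (χ : Γ →* ℚ_[ℓ]) (hχ : ∀ s, χ s = χ' (i s))
    (ω : ℚ_[ℓ] ⊗[ℚ] W →ₗ[ℚ_[ℓ]] ℚ_[ℓ] ⊗[ℚ] W →ₗ[ℚ_[ℓ]] ℚ_[ℓ])
    (hωω : ∀ u v : W, ω ((1 : ℚ_[ℓ]) ⊗ₜ[ℚ] u) ((1 : ℚ_[ℓ]) ⊗ₜ[ℚ] v) = ((ω₀ u v : ℚ) : ℚ_[ℓ]))
    (halt : ∀ v, ω v v = 0) (hnd : ∀ u, (∀ v, ω u v = 0) → u = 0)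
    (hωρ : ∀ s u v, ω (ρ' s u) (ρ' s v) = χ' s * ω u v)
    -- the theorems of Faltings and Deligne and the theorem on centres
    (hss : FiniteIndexSemisimple ρ) (hF : Faltings per ρ) (hD : Deligne per ρ' χ')
    (hC : Centres per ρ χ)
    -- the extension of the representation to an algebraic closure
    (Ω : Type) [Field Ω] [Algebra ℚ_[ℓ] Ω] [IsAlgClosure ℚ_[ℓ] Ω]
    (R : Representation Ω Γ (Ω ⊗[ℚ_[ℓ]] (ℚ_[ℓ] ⊗[ℚ] W))) (hR : ∀ s, R s = (ρ s).baseChange Ω)
    (η : Γ →* Ω) (hη : ∀ s, η s = algebraMap ℚ_[ℓ] Ω (χ s))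
    -- the Hodge-Tate operators, the theorems of Serre and Pink
    (H : Set (Module.End Ω (Ω ⊗[ℚ_[ℓ]] (ℚ_[ℓ] ⊗[ℚ] W)))) (hH : HodgeTateOperators R η H)
    (hchar : CharactersOfWeightZero R H) (hPink : HodgeTateGenerate R η)
    (hE : ∀ U, SI R U → 3 ≤ finrank Ω U → HasSmallOperator R η U)
    (hB : BothWeights R η H)
    (m : ℕ) (φ : MultilinearMap ℚ_[ℓ] (fun _ : Fin m × Fin 2 => ℚ_[ℓ] ⊗[ℚ] W) ℚ_[ℓ])
    (hφ : IsTateTensor ρ χ m φ) : IsHodgeCombination per φ ∧ IsTateTensor ρ' χ' m φ := by
  have _ : IsAlgClosed Ω := IsAlgClosure.isAlgClosed ℚ_[ℓ]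
  have _ : Algebra.IsAlgebraic ℚ_[ℓ] Ω := IsAlgClosure.isAlgebraic
  have _ : CharZero Ω := charZero_of_injective_algebraMap (algebraMap ℚ_[ℓ] Ω).injective
  have hR' : R = Pool.Agent.H204R3.SP.bcr ρ Ω := by
    ext1 s
    exact hR s
  have hη' : η = Pool.Agent.H204R3.SP.bcc χ Ω := by
    ext1 s
    exact hη s
  subst hR' hη'
  have hωρ' : ∀ s u v, ω (ρ s u) (ρ s v) = χ s * ω u v := by
    intro s u v
    rw [hρ, hχ, hωρ]
  have hD' : Deligne per ρ χ := by
    intro m ψ hψ φ h
    obtain ⟨Δ, hΔ, h1⟩ := hD m ψ hψ φ h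
    refine ⟨Δ.comap i, ⟨?_⟩, fun s hs v => ?_⟩
    · have h2 := Subgroup.relIndex_comap_ne_zero i (J := Δ) (K := ⊤) (by
        rw [Subgroup.relIndex_top_right]
        exact hΔ.index_ne_zero)
      rwa [Subgroup.comap_top, Subgroup.relIndex_top_right] at h2
    · simp only [hρ, hχ]
      exact h1 _ hs v
  have hanti : ∀ u v, ω u v = -ω v u := by
    intro u v
    have h1 := halt (u + v)
    simp only [map_add, LinearMap.add_apply, halt, zero_add, add_zero] at h1
    exact eq_neg_of_add_eq_zero_left (by rw [← h1]; ring)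
  have hnd' : ∀ u, (∀ v, ω v u = 0) → u = 0 := by
    intro u hu
    apply hnd
    intro v
    rw [hanti, hu, neg_zero]
  have hnb := bcb_nondeg_left (Ω := Ω) ω hnd' hnd
  have hinv := Pool.Agent.H204R3.SP.bcb_inv (Ω := Ω) ρ χ ω hωρ'
  have hproj : HasProj (Pool.Agent.H204R3.SP.bcr ρ Ω) := hasProj_bcr ρ Ω hss
  have hE' : ∀ U, SI (Pool.Agent.H204R3.SP.bcr ρ Ω) U → 2 ≤ finrank Ω U →
      HasReflection (Pool.Agent.H204R3.SP.bcr ρ Ω) U ∨ (3 ≤ finrank Ω U ∧
        HasSmallOperator (Pool.Agent.H204R3.SP.bcr ρ Ω) (Pool.Agent.H204R3.SP.bcc χ Ω) U) := by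
    intro U hU h2
    rcases Nat.lt_or_ge 2 (finrank Ω U) with h3 | h3
    · exact Or.inr ⟨h3, hE U hU h3⟩
    · exact Or.inl (Pool.Agent.W522.S.refl_of_two ℓ ρ hU (le_antisymm h3 h2))
  have hHT : HasHodgeTate (Pool.Agent.H204R3.SP.bcr ρ Ω) (Pool.Agent.H204R3.SP.bcc χ Ω) := by
    obtain ⟨⟨h, hh⟩, h1⟩ := hH
    exact ⟨h, h1 h hh⟩
  have htwist : TwistFree2 (Pool.Agent.H204R3.SP.bcr ρ Ω) (Pool.Agent.H204R3.SP.bcc χ Ω) :=
    twistFree_of_weights _ hnb (fun g u v => hinv g u v) hproj hH hchar hB
  have hmain : IsHodgeCombination per φ := by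
    refine mt_of_fam per ρ χ ω₀ ω hω₀ (fun u v => by rw [hωω, eq_ratCast]) hωρ' hD'
      hper halt hnd hss hF hC Ω (fun s W hW hWW st hst hDu hDu' => ?_) m φ hφ
    exact family' _ hnb (fun g u v => hinv g u v) hproj hPink hE'
      (lines_of_hodge_tate _ hnb (fun g u v => hinv g u v) hproj hHT) htwist W hW hWW st hst hDu
      hDu'
  refine ⟨hmain, ?_⟩
  clear hφ
  unfold IsHodgeCombination at hmain
  induction hmain using Submodule.span_induction with
  | mem φ h =>
    obtain ⟨ψ, h1, h2⟩ := h
    exact hD m ψ h1 φ h2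
  | zero =>
    refine ⟨⊤, inferInstance, fun s _ v => ?_⟩
    change (0 : ℚ_[ℓ]) = χ' s ^ m * 0
    rw [mul_zero]
  | add a b _ _ ha hb =>
    obtain ⟨Δ, hΔ, h1⟩ := ha
    obtain ⟨Δ', hΔ', h2⟩ := hb
    refine ⟨Δ ⊓ Δ', inferInstance, fun s hs v => ?_⟩
    change a _ + b _ = χ' s ^ m * (a v + b v)
    rw [h1 s hs.1, h2 s hs.2, mul_add]
  | smul c a _ ha =>
    obtain ⟨Δ, hΔ, h1⟩ := ha
    refine ⟨Δ, hΔ, fun s hs v => ?_⟩
    change c * a _ = χ' s ^ m * (c * a v)
    rw [h1 s hs]
    ring

end Pool.Agent.Results.MP_09799c_ag.GaloisSpecialPoints
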